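import Pool.Agent.TH138.NF.Defs

/-!
# Links of bounded VC-dimension: definitions
-/

set_option autoImplicit false

namespace Pool.Agent.V11247.LV

open Finset

/-- the number of elements of `M` below `x` -/
def below (M : Finset ℕ) (x : ℕ) : ℕ := (M.filter (fun v => v < x)).card

/-- Let `c` be a colouring of the `r`-subsets of `V` and `i ≤ j ≤ r - 2`. For every set `M` of
`r - 2` vertices and every colour `a` consider the bipartite relation (that `M ∪ {x, z}` has the
colour `a`) between the vertices `x` with exactly `i` elements of `M` below `x` and the vertices `z > x` with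
exactly `j` elements of `M` below `z` (so `x` is the vertex number `i`, and `z` the vertex number
`j + 1` of `M ∪ {x, z}`, if we count from zero). The condition says that no set `X` of `d + 1`
vertices of the first kind is shattered by the vertices of the second kind above `X`: there is a
subset `E` of `X` which is not the set of the neighbours in `X` of any such `z`. -/
def LinkVC {κ : Type} (r i j d : ℕ) (V : Finset ℕ) (c : Finset ℕ → κ) : Prop :=
  ∀ M ⊆ V, M.card + 2 = r → ∀ (a : κ) (X : Finset ℕ), X ⊆ V → X.card = d + 1 →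
    (∀ x ∈ X, x ∉ M ∧ below M x = i) →
      ∃ E ⊆ X, ∀ z ∈ V, z ∉ M → below M z = j → (∀ x ∈ X, x < z) →
        ¬ ∀ x ∈ X, (c (insert x (insert z M)) = a ↔ x ∈ E)

lemma LinkVC.mono {κ : Type} {r i j d : ℕ} {V W : Finset ℕ} {c : Finset ℕ → κ}
    (h : LinkVC r i j d V c) (hW : W ⊆ V) : LinkVC r i j d W c := by
  intro M hM hMc a X hX hXc hXM
  obtain ⟨E, hE, h2⟩ := h M (hM.trans hW) hMc a X (hX.trans hW) hXc hXM
  exact ⟨E, hE, fun z hz => h2 z (hW hz)⟩

/-- all pairs in `S` have the colour `a` -/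
def Clq {κ : Type} (c : Finset ℕ → κ) (a : κ) (S : Finset ℕ) : Prop :=
  ∀ x ∈ S, ∀ y ∈ S, x < y → c {x, y} = a

lemma Clq.mono {κ : Type} {c : Finset ℕ → κ} {a : κ} {S T : Finset ℕ} (h : Clq c a S)
    (hT : T ⊆ S) : Clq c a T := fun x hx y hy => h x (hT hx) y (hT hy)

/-- the condition for pairs -/
def PVC {κ : Type} (d : ℕ) (V : Finset ℕ) (c : Finset ℕ → κ) : Prop :=
  ∀ (a : κ) (X : Finset ℕ), X ⊆ V → X.card = d + 1 →
    ∃ E ⊆ X, ∀ z ∈ V, (∀ x ∈ X, x < z) → ¬ ∀ x ∈ X, (c {x, z} = a ↔ x ∈ E)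

lemma PVC.mono {κ : Type} {d : ℕ} {V W : Finset ℕ} {c : Finset ℕ → κ}
    (h : PVC d V c) (hW : W ⊆ V) : PVC d W c := by
  intro a X hX hXc
  obtain ⟨E, hE, h2⟩ := h a X (hX.trans hW) hXc
  exact ⟨E, hE, fun z hz => h2 z (hW hz)⟩

lemma pvc_of_linkVC {κ : Type} {d : ℕ} {V : Finset ℕ} {c : Finset ℕ → κ}
    (h : LinkVC 2 0 0 d V c) : PVC d V c := by
  intro a X hX hXc
  obtain ⟨E, hE, h2⟩ := h ∅ (empty_subset _) (by simp) a X hX hXc (by simp [below])
  refine ⟨E, hE, fun z hz hXz h3 => ?_⟩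
  exact h2 z hz (by simp) (by simp [below]) hXz (by simpa using h3)

end Pool.Agent.V11247.LV
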