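import Mathlib

/-!
# Sets on which the last vertex does not matter
-/

set_option autoImplicit false

namespace Pool.Agent.V11247.LV

open Finset

/-- many functions are constant on a large set -/
theorem const_on {α ι Γ : Type} [DecidableEq α] [DecidableEq ι] [DecidableEq Γ] (L : ℕ)
    (T : Finset ι) (F : ι → α → Γ) (W : Finset α) (hF : ∀ t ∈ T, (W.image (F t)).card ≤ L) :
    ∃ W' ⊆ W, W.card ≤ L ^ T.card * W'.card ∧ ∀ t ∈ T, ∀ x ∈ W', ∀ y ∈ W', F t x = F t y := by
  induction T using Finset.induction_on with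
  | empty => exact ⟨W, Subset.refl _, by simp, by simp⟩
  | insert t T ht ih =>
    obtain ⟨W', hW', hc, hconst⟩ := ih (fun t ht => hF t (mem_insert_of_mem ht))
    rcases W'.eq_empty_or_nonempty with hemp | hne
    · refine ⟨∅, empty_subset _, ?_, by simp⟩
      rw [hemp, card_empty, Nat.mul_zero] at hc
      omega
    obtain ⟨γ, hγ, hmax⟩ := Finset.exists_max_image (W'.image (F t))
      (fun γ => (W'.filter (fun x => F t x = γ)).card) (hne.image _)
    refine ⟨W'.filter (fun x => F t x = γ), (filter_subset _ _).trans hW', ?_, ?_⟩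
    · have h1 : W'.card ≤ (W'.filter (fun x => F t x = γ)).card * (W'.image (F t)).card := by
        apply card_le_mul_card_image
        intro b hb
        exact hmax b hb
      have h2 : (W'.image (F t)).card ≤ L :=
        (card_le_card (image_subset_image hW')).trans (hF t (mem_insert_self _ _))
      rw [card_insert_of_notMem ht]
      calc W.card ≤ L ^ T.card * W'.card := hc
        _ ≤ L ^ T.card * ((W'.filter (fun x => F t x = γ)).card * L) :=
            Nat.mul_le_mul_left _ (h1.trans (Nat.mul_le_mul_left _ h2))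
        _ = L ^ (T.card + 1) * (W'.filter (fun x => F t x = γ)).card := by ring
    · intro u hu x hx y hy
      obtain ⟨hx1, hx2⟩ := mem_filter.1 hx
      obtain ⟨hy1, hy2⟩ := mem_filter.1 hy
      rcases mem_insert.1 hu with rfl | hu
      · rw [hx2, hy2]
      · exact hconst u hu x hx1 y hy1

lemma small_subsets {α : Type} [DecidableEq α] (P : Finset α) (k : ℕ) :
    (P.powerset.filter (fun A => A.card ≤ k)).card ≤ (P.card + 1) ^ k := by
  induction k with
  | zero =>
    have : P.powerset.filter (fun A => A.card ≤ 0) ⊆ {∅} := by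
      intro A hA
      have := (mem_filter.1 hA).2
      simpa using this
    simpa using card_le_card this
  | succ k ih =>
    set S := P.powerset.filter (fun A => A.card ≤ k) with hS
    have hsub : P.powerset.filter (fun A => A.card ≤ k + 1) ⊆
        S ∪ (P ×ˢ S).image (fun q => insert q.1 q.2) := by
      intro A hA
      obtain ⟨hA1, hA2⟩ := mem_filter.1 hA
      rcases Nat.lt_or_ge k A.card with h | h
      · have hne : A.Nonempty := card_pos.1 (by omega)
        obtain ⟨x, hx⟩ := hne
        apply mem_union_right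
        refine mem_image.2 ⟨(x, A.erase x), mem_product.2 ⟨mem_powerset.1 hA1 hx, ?_⟩,
          insert_erase hx⟩
        refine mem_filter.2 ⟨mem_powerset.2 ((erase_subset _ _).trans (mem_powerset.1 hA1)), ?_⟩
        rw [card_erase_of_mem hx]
        omega
      · exact mem_union_left _ (mem_filter.2 ⟨hA1, h⟩)
    calc (P.powerset.filter (fun A => A.card ≤ k + 1)).card
        ≤ S.card + ((P ×ˢ S).image (fun q => insert q.1 q.2)).card :=
          (card_le_card hsub).trans (card_union_le _ _)
      _ ≤ S.card + P.card * S.card := by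
          apply Nat.add_le_add_left
          refine card_image_le.trans ?_
          rw [card_product]
      _ = (P.card + 1) * S.card := by ring
      _ ≤ (P.card + 1) * (P.card + 1) ^ k := Nat.mul_le_mul_left _ ih
      _ = (P.card + 1) ^ (k + 1) := by ring

theorem ends {α Γ : Type} [LinearOrder α] [DecidableEq Γ] (F : Finset α → α → Γ) (L k : ℕ)
    (hL : 1 ≤ L) (V : Finset α)
    (hF : ∀ A ⊆ V, A.card ≤ k → ∃ S : Finset Γ, S.card ≤ L ∧
      ∀ z ∈ V, (∀ a ∈ A, a < z) → F A z ∈ S)
    (m : ℕ) (hV : (2 * L ^ ((m + 1) ^ k)) ^ m ≤ V.card) :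
    ∃ P ⊆ V, P.card = m ∧ ∃ zs ∈ V, (∀ p ∈ P, p < zs) ∧
      ∀ A ⊆ P, A.Nonempty → A.card ≤ k → ∀ z ∈ P, (∀ a ∈ A, a < z) → F A z = F A zs := by
  set Q := L ^ ((m + 1) ^ k) with hQ
  have hQ1 : 1 ≤ Q := Nat.one_le_pow _ _ hL
  have main : ∀ t ≤ m, ∃ P ⊆ V, ∃ W ⊆ V, P.card = t ∧ (2 * Q) ^ (m - t) ≤ W.card ∧
      (∀ p ∈ P, ∀ w ∈ W, p < w) ∧
      ∀ A ⊆ P, A.Nonempty → A.card ≤ k → ∀ z ∈ P ∪ W, (∀ a ∈ A, a < z) → ∀ w ∈ W,
        F A z = F A w := by
    intro t
    induction t with
    | zero =>
      intro _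
      refine ⟨∅, empty_subset _, V, Subset.refl _, rfl, by simpa using hV, by simp, ?_⟩
      intro A hA hne
      rw [subset_empty.1 hA] at hne
      exact absurd hne (by simp)
    | succ t ih =>
      intro ht
      obtain ⟨P, hP, W, hW, hPc, hWc, hPW, hconst⟩ := ih (by omega)
      have hWne : W.Nonempty := card_pos.1 (lt_of_lt_of_le (by positivity) hWc)
      set p := W.min' hWne with hp
      have hpW : p ∈ W := min'_mem _ _
      have hpP : p ∉ P := fun h => lt_irrefl _ (hPW p h p hpW)
      have hlt : ∀ w ∈ W.erase p, p < w := fun w hw =>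
        lt_of_le_of_ne (min'_le _ _ (mem_of_mem_erase hw)) (ne_of_mem_erase hw).symm
      set T := (insert p P).powerset.filter (fun A => A.card ≤ k) with hT
      have hall : ∀ a ∈ insert p P, ∀ w ∈ W.erase p, a < w := by
        intro a ha w hw
        rcases mem_insert.1 ha with rfl | ha
        · exact hlt w hw
        · exact hPW a ha w (mem_of_mem_erase hw)
      have hins : insert p P ⊆ V := insert_subset (hW hpW) hP
      obtain ⟨W', hW', hc', hconst'⟩ := const_on L T F (W.erase p) (by
        intro A hA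
        obtain ⟨hA1, hA2⟩ := mem_filter.1 hA
        obtain ⟨S, hS, hFS⟩ := hF A ((mem_powerset.1 hA1).trans hins) hA2
        refine (card_le_card ?_).trans hS
        intro g hg
        obtain ⟨w, hw, rfl⟩ := mem_image.1 hg
        exact hFS w (hW (mem_of_mem_erase hw)) (fun a ha => hall a (mem_powerset.1 hA1 ha) w hw))
      have hTc : T.card ≤ (m + 1) ^ k := by
        refine (small_subsets (insert p P) k).trans (Nat.pow_le_pow_left ?_ _)
        rw [card_insert_of_notMem hpP]
        omega
      have hQT : L ^ T.card ≤ Q := Nat.pow_le_pow_right hL hTc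
      have hsize : (2 * Q) ^ (m - (t + 1)) ≤ W'.card := by
        rw [card_erase_of_mem hpW] at hc'
        have e1 : (2 * Q) ^ (m - t) = 2 * Q * (2 * Q) ^ (m - (t + 1)) := by
          rw [← pow_succ']
          congr 1
          omega
        rw [e1] at hWc
        set E' := (2 * Q) ^ (m - (t + 1)) with hE'
        have hE1 : 1 ≤ E' := Nat.one_le_pow _ _ (by omega)
        have h3 : W.card - 1 ≤ Q * W'.card := hc'.trans (Nat.mul_le_mul_right _ hQT)
        by_contra hcon
        push Not at hcon
        have h4 : W'.card + 1 ≤ E' := hcon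
        have h5 : Q * (W'.card + 1) ≤ Q * E' := Nat.mul_le_mul_left _ h4
        have h6 : 1 ≤ Q * E' := Nat.mul_pos hQ1 hE1
        have h7 : 2 * Q * E' = 2 * (Q * E') := by ring
        have h8 : Q * (W'.card + 1) = Q * W'.card + Q := by ring
        omega
      refine ⟨insert p P, hins, W', hW'.trans ((erase_subset _ _).trans hW),
        by rw [card_insert_of_notMem hpP, hPc], hsize, ?_, ?_⟩
      · intro a ha w hw
        exact hall a ha w (hW' hw)
      · intro A hA hne hAk z hz hAz w hw
        rcases mem_union.1 hz with hz | hz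
        · have hAP : A ⊆ P := by
            intro a ha
            rcases mem_insert.1 (hA ha) with rfl | h
            · exfalso
              have h1 := hAz _ ha
              rcases mem_insert.1 hz with rfl | hz
              · exact lt_irrefl _ h1
              · exact lt_asymm h1 (hPW z hz _ hpW)
            · exact h
          refine hconst A hAP hne hAk z ?_ hAz w (mem_of_mem_erase (hW' hw))
          rcases mem_insert.1 hz with rfl | hz
          · exact mem_union_right _ hpW
          · exact mem_union_left _ hz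
        · exact hconst' A (mem_filter.2 ⟨mem_powerset.2 hA, hAk⟩) z hz w hw
  obtain ⟨P, hP, W, hW, hPc, hWc, hPW, hconst⟩ := main m le_rfl
  rw [Nat.sub_self, pow_zero] at hWc
  obtain ⟨zs, hzs⟩ := card_pos.1 hWc
  refine ⟨P, hP, hPc, zs, hW hzs, fun p hp => hPW p hp zs hzs, ?_⟩
  intro A hA hne hAk z hz hAz
  exact hconst A hA hne hAk z (mem_union_left _ hz) hAz zs hzs

/-- the same for the first vertex -/
theorem starts {Γ : Type} [DecidableEq Γ] (F : Finset ℕ → ℕ → Γ) (L k : ℕ)
    (hL : 1 ≤ L) (V : Finset ℕ)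
    (hF : ∀ A ⊆ V, A.card ≤ k → ∃ S : Finset Γ, S.card ≤ L ∧
      ∀ z ∈ V, (∀ a ∈ A, z < a) → F A z ∈ S)
    (m : ℕ) (hV : (2 * L ^ ((m + 1) ^ k)) ^ m ≤ V.card) :
    ∃ P ⊆ V, P.card = m ∧ ∃ zs ∈ V, (∀ p ∈ P, zs < p) ∧
      ∀ A ⊆ P, A.Nonempty → A.card ≤ k → ∀ z ∈ P, (∀ a ∈ A, z < a) → F A z = F A zs := by
  exact @ends ℕᵒᵈ Γ _ _ F L k hL V hF m hV

end Pool.Agent.V11247.LV
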