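import Pool.Agent.V11247.LV.Size

/-!
# Links of bounded VC-dimension: growth, and the height of the tower
-/

set_option autoImplicit false

namespace Pool.Agent.V11247.LV

open Finset Filter
open Pool.Agent.TH138.NF (Homogeneous tow tow_mono high)

/-- colourings without homogeneous set on so many vertices have links of large VC-dimension -/
theorem growth (r q : ℕ) (ε : ℝ) (hε : 0 < ε) :
    ∃ δ : ℝ, 0 < δ ∧ ∃ n₀ : ℕ, ∀ n : ℕ, n₀ ≤ n → ∀ N : ℕ, tow (r - 1) (ε * n) ≤ N →
      ∀ (κ : Type) [Fintype κ], Fintype.card κ = q → ∀ c : Finset ℕ → κ,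
        (∀ H ⊆ range N, H.card = n → ¬ Homogeneous r c H) →
        ∀ i j d : ℕ, i ≤ j → j + 2 ≤ r → (d : ℝ) ≤ δ * Real.sqrt n / Real.log n →
          ¬ LinkVC r i j d (range N) c := by
  set C : ℝ := r * (3 * r + 4) * q ^ 3 + 1 with hC
  have hC0 : 0 < C := by positivity
  set δ : ℝ := Real.sqrt (ε / (16 * C)) with hδ
  have hδ0 : 0 < δ := Real.sqrt_pos.2 (by positivity)
  have hδ2 : 16 * C * δ ^ 2 = ε := by
    rw [hδ, Real.sq_sqrt (by positivity)]
    field_simp
  have h1 : ∀ᶠ n : ℕ in atTop, 3 * Real.log n ≤ δ * Real.sqrt n := by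
    have h2 := isLittleO_log_rpow_atTop (r := (1 / 2 : ℝ)) (by norm_num)
    have h3 := h2.comp_tendsto tendsto_natCast_atTop_atTop
    have h4 := h3.bound (c := δ / 3) (by positivity)
    filter_upwards [h4, eventually_ge_atTop 1] with n hn hn1
    simp only [Function.comp_apply, Real.norm_eq_abs] at hn
    rw [← Real.sqrt_eq_rpow, abs_of_nonneg (Real.sqrt_nonneg _)] at hn
    have := (le_abs_self _).trans hn
    linarith
  obtain ⟨n₁, hn₁⟩ := (h1.and (eventually_ge_atTop 3)).exists_forall_of_atTop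
  refine ⟨δ, hδ0, n₁, fun n hn N hN κ _ hκ c hc i j d hij hj hd hvc => ?_⟩
  obtain ⟨hlog, hn3⟩ := hn₁ n hn
  have hn3' : (3 : ℝ) ≤ n := by exact_mod_cast hn3
  have hlog1 : 1 ≤ Real.log n := by
    rw [← Real.log_exp 1]
    apply Real.log_le_log (Real.exp_pos _)
    have := Real.exp_one_lt_d9
    linarith
  have hlog0 : 0 < Real.log n := by linarith
  have hl2 : (0.6931471803 : ℝ) < Real.log 2 := Real.log_two_gt_d9
  have hw : ((Nat.log 2 n : ℕ) : ℝ) + 1 ≤ 3 * Real.log n := by
    have h5 : ((2 ^ Nat.log 2 n : ℕ) : ℝ) ≤ n := by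
      exact_mod_cast Nat.pow_log_le_self 2 (by omega)
    have h6 : ((Nat.log 2 n : ℕ) : ℝ) * Real.log 2 ≤ Real.log n := by
      rw [← Real.log_pow]
      apply Real.log_le_log (by positivity)
      push_cast at h5
      exact h5
    have h7 : (0 : ℝ) ≤ (Nat.log 2 n : ℕ) := Nat.cast_nonneg _
    nlinarith
  have hdw : ((d : ℝ) + 1) * ((Nat.log 2 n : ℕ) + 1) ≤ 4 * δ * Real.sqrt n := by
    have h8 : (d : ℝ) * Real.log n ≤ δ * Real.sqrt n := by
      rwa [le_div_iff₀ hlog0] at hd
    have h9 : (0 : ℝ) ≤ (d : ℝ) + 1 := by positivity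
    calc ((d : ℝ) + 1) * ((Nat.log 2 n : ℕ) + 1) ≤ ((d : ℝ) + 1) * (3 * Real.log n) :=
          mul_le_mul_of_nonneg_left hw h9
      _ = 3 * ((d : ℝ) * Real.log n) + 3 * Real.log n := by ring
      _ ≤ 3 * (δ * Real.sqrt n) + δ * Real.sqrt n := by linarith
      _ = 4 * δ * Real.sqrt n := by ring
  have hsq : (((d : ℝ) + 1) * ((Nat.log 2 n : ℕ) + 1)) ^ 2 ≤ 16 * δ ^ 2 * n := by
    calc (((d : ℝ) + 1) * ((Nat.log 2 n : ℕ) + 1)) ^ 2 ≤ (4 * δ * Real.sqrt n) ^ 2 :=
          pow_le_pow_left₀ (by positivity) hdw 2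
      _ = 16 * δ ^ 2 * (Real.sqrt n) ^ 2 := by ring
      _ = 16 * δ ^ 2 * n := by rw [Real.sq_sqrt (Nat.cast_nonneg _)]
  have hle : ((r * (3 * r + 4) * Fintype.card κ ^ 3 * (d + 1) ^ 2 *
      (Nat.log 2 n + 1) ^ 2 : ℕ) : ℝ) ≤ ε * n := by
    push_cast
    rw [hκ]
    calc (r : ℝ) * (3 * r + 4) * (q : ℝ) ^ 3 * ((d : ℝ) + 1) ^ 2 * ((Nat.log 2 n : ℕ) + 1) ^ 2
        = (r * (3 * r + 4) * q ^ 3) * (((d : ℝ) + 1) * ((Nat.log 2 n : ℕ) + 1)) ^ 2 := by ring
      _ ≤ C * (((d : ℝ) + 1) * ((Nat.log 2 n : ℕ) + 1)) ^ 2 := by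
          apply mul_le_mul_of_nonneg_right _ (by positivity)
          rw [hC]
          linarith
      _ ≤ C * (16 * δ ^ 2 * n) := mul_le_mul_of_nonneg_left hsq hC0.le
      _ = (16 * C * δ ^ 2) * n := by ring
      _ = ε * n := by rw [hδ2]
  obtain ⟨H, hH, hHc, hh⟩ := upper r i j d n N hij hj ((tow_mono _ hle).trans hN) c hvc
  exact hc H hH hHc hh

/-! ### the converse -/

lemma below_lt {B : Finset ℕ} {x y : ℕ} (hx : x ∈ B) (h : x < y) : below B x < below B y := by
  unfold below
  apply card_lt_card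
  refine ⟨fun v hv => ?_, fun hsub => ?_⟩
  · obtain ⟨h1, h2⟩ := mem_filter.1 hv
    exact mem_filter.2 ⟨h1, by omega⟩
  · have := (mem_filter.1 (hsub (mem_filter.2 ⟨hx, h⟩))).2
    exact lt_irrefl _ this

lemma below_mono (B : Finset ℕ) {x y : ℕ} (h : x ≤ y) : below B x ≤ below B y := by
  unfold below
  apply card_le_card
  intro v hv
  obtain ⟨h1, h2⟩ := mem_filter.1 hv
  exact mem_filter.2 ⟨h1, by omega⟩

lemma below_inj {B : Finset ℕ} {x y : ℕ} (hx : x ∈ B) (hy : y ∈ B) (h : below B x = below B y) :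
    x = y := by
  rcases lt_trichotomy x y with h1 | h1 | h1
  · have := below_lt hx h1
    omega
  · exact h1
  · have := below_lt hy h1
    omega

lemma below_lt_card {B : Finset ℕ} {x : ℕ} (hx : x ∈ B) : below B x < B.card := by
  unfold below
  apply card_lt_card
  refine ⟨filter_subset _ _, fun hsub => ?_⟩
  exact lt_irrefl _ (mem_filter.1 (hsub hx)).2

lemma image_below (B : Finset ℕ) : B.image (below B) = range B.card := by
  apply eq_of_subset_of_card_le
  · intro k hk
    obtain ⟨x, hx, rfl⟩ := mem_image.1 hk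
    exact mem_range.2 (below_lt_card hx)
  · rw [card_range, card_image_of_injOn]
    intro x hx y hy h
    exact below_inj hx hy h

lemma exists_below {B : Finset ℕ} {t : ℕ} (ht : t < B.card) : ∃ x ∈ B, below B x = t := by
  have : t ∈ B.image (below B) := by rw [image_below]; exact mem_range.2 ht
  obtain ⟨x, hx, h⟩ := mem_image.1 this
  exact ⟨x, hx, h⟩

lemma card_odd (m : ℕ) : ((range (2 * m + 1)).filter (fun k => k % 2 = 1)).card = m := by
  induction m with
  | zero => decide
  | succ m ih =>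
    rw [show 2 * (m + 1) + 1 = 2 * m + 1 + 1 + 1 by ring, range_add_one, filter_insert,
      if_neg (by omega), range_add_one, filter_insert, if_pos (by omega),
      card_insert_of_notMem (by simp), ih]

/-- the colouring of the sets without their element number `t` -/
def drop {κ : Type} (t : ℕ) (c : Finset ℕ → κ) (A : Finset ℕ) : κ :=
  c (A.filter (fun v => below A v ≠ t))

lemma drop_insert {κ : Type} {t : ℕ} {c : Finset ℕ → κ} {B : Finset ℕ} {y : ℕ} (hy : y ∉ B)
    (ht : below B y = t) : drop t c (insert y B) = c B := by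
  unfold drop
  congr 1
  ext v
  rw [mem_filter, mem_insert]
  constructor
  · rintro ⟨rfl | hv, h⟩
    · exact absurd (by rw [below, filter_insert, if_neg (lt_irrefl _)]; exact ht) h
    · exact hv
  · intro hv
    refine ⟨Or.inr hv, ?_⟩
    rcases lt_or_ge v y with h1 | h1
    · rw [below_insert_gt h1]
      have := below_lt hv h1
      omega
    · have h2 : y < v := lt_of_le_of_ne h1 (fun e => hy (e ▸ hv))
      rw [below_insert_lt hy h2]
      have := below_mono B h1
      omega

lemma drop_link {κ : Type} (r i j : ℕ) (V : Finset ℕ) (c : Finset ℕ → κ) :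
    LinkVC r i j 0 V (drop (j + 1) c) := by
  classical
  intro M hM hMc a X hX hXc hXM
  obtain ⟨x, rfl⟩ := card_eq_one.1 (by simpa using hXc)
  have hxM : x ∉ M := (hXM x (mem_singleton_self _)).1
  have key : ∀ z ∉ M, below M z = j → x < z →
      drop (j + 1) c (insert x (insert z M)) = c (insert x M) := by
    intro z hzM hz hxz
    rw [Finset.insert_comm]
    apply drop_insert
    · intro h
      rcases mem_insert.1 h with h | h
      · omega
      · exact hzM h
    · rw [below_insert_lt hxM hxz, hz]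
  by_cases hcol : c (insert x M) = a
  · refine ⟨∅, empty_subset _, fun z _ hzM hzj hXz h => ?_⟩
    have := (h x (mem_singleton_self _)).1 (by
      rw [key z hzM hzj (hXz x (mem_singleton_self _))]; exact hcol)
    exact absurd this (notMem_empty _)
  · refine ⟨{x}, Subset.refl _, fun z _ hzM hzj hXz h => ?_⟩
    have := (h x (mem_singleton_self _)).2 (mem_singleton_self _)
    rw [key z hzM hzj (hXz x (mem_singleton_self _))] at this
    exact hcol this

lemma drop_hom {κ : Type} {r t m : ℕ} {c : Finset ℕ → κ} {H : Finset ℕ} (ht : t ≤ r)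
    (hH : H.card = 2 * m + 1) (hh : Homogeneous (r + 1) (drop t c) H) :
    ∃ O ⊆ H, O.card = m ∧ Homogeneous r c O := by
  classical
  set O := H.filter (fun v => below H v % 2 = 1) with hO
  have hOc : O.card = m := by
    have h1 : O.image (below H) = (range (2 * m + 1)).filter (fun k => k % 2 = 1) := by
      rw [← hH, ← image_below]
      ext k
      simp only [mem_image, mem_filter, hO]
      constructor
      · rintro ⟨v, ⟨hv, h2⟩, rfl⟩
        exact ⟨⟨v, hv, rfl⟩, h2⟩
      · rintro ⟨⟨v, hv, rfl⟩, h2⟩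
        exact ⟨v, ⟨hv, h2⟩, rfl⟩
    rw [← card_odd m, ← h1, card_image_of_injOn]
    intro x hx y hy h
    exact below_inj (mem_filter.1 hx).1 (mem_filter.1 hy).1 h
  have hOH : O ⊆ H := filter_subset _ _
  have key : ∀ B ⊆ O, B.card = r → ∃ y ∈ H, y ∉ B ∧ below B y = t := by
    intro B hB hBc
    rcases Nat.lt_or_ge t r with h1 | h1
    · obtain ⟨o, ho, hot⟩ := exists_below (B := B) (t := t) (by omega)
      obtain ⟨hoH, hodd⟩ := mem_filter.1 (hB ho)
      have hk := below_lt_card hoH
      obtain ⟨y, hy, hyb⟩ := exists_below (B := H) (t := below H o - 1) (by omega)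
      have hyo : y < o := by
        rcases lt_trichotomy y o with h | h | h
        · exact h
        · rw [h] at hyb
          omega
        · have := below_lt hoH h
          omega
      have hyO : y ∉ O := fun h => by
        have := (mem_filter.1 h).2
        omega
      refine ⟨y, hy, fun h => hyO (hB h), ?_⟩
      rw [← hot]
      unfold below
      congr 1
      apply filter_congr
      intro v hv
      constructor
      · intro h
        omega
      · intro h
        have hvH := hOH (hB hv)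
        have h2 := below_lt hvH h
        rcases lt_trichotomy v y with h3 | h3 | h3
        · exact h3
        · exact absurd (h3 ▸ hB hv) hyO
        · have := below_lt hy h3
          omega
    · obtain ⟨y, hy, hyb⟩ := exists_below (B := H) (t := 2 * m) (by omega)
      have hyO : y ∉ O := fun h => by
        have := (mem_filter.1 h).2
        omega
      refine ⟨y, hy, fun h => hyO (hB h), ?_⟩
      rw [below_all, hBc]
      · omega
      · intro v hv
        have hvH := hOH (hB hv)
        have h2 := below_lt_card hvH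
        rcases lt_trichotomy v y with h3 | h3 | h3
        · exact h3
        · exact absurd (h3 ▸ hB hv) hyO
        · have := below_lt hy h3
          omega
  refine ⟨O, hOH, hOc, ?_⟩
  intro A hA B hB hAc hBc
  obtain ⟨y, hy, hyA, hyt⟩ := key A hA hAc
  obtain ⟨y', hy', hyB, hyt'⟩ := key B hB hBc
  rw [← drop_insert (c := c) hyA hyt, ← drop_insert (c := c) hyB hyt']
  exact hh _ (insert_subset hy (hA.trans hOH)) _ (insert_subset hy' (hB.trans hOH))
    (by rw [card_insert_of_notMem hyA, hAc]) (by rw [card_insert_of_notMem hyB, hBc])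

/-- the height of the tower is the right one, for every pair of coordinates -/
theorem sharp (s J : ℕ) : ∃ N : ℕ, (N : ℝ) = tow (s + 2) J ∧
    ∀ i j : ℕ, i ≤ j → j + 2 ≤ s + 4 → ∃ c : Finset ℕ → Bool × Bool,
      LinkVC (s + 4) i j 0 (range N) c ∧
      ∀ H ⊆ range N, H.card = 2 * (2 ^ s * (4 * J + s + 5)) + 1 → ¬ Homogeneous (s + 4) c H := by
  obtain ⟨N, hN, _, c, _, _, hc⟩ := high s J
  refine ⟨N, hN, fun i j _ hj => ⟨drop (j + 1) c, drop_link _ _ _ _ _, ?_⟩⟩
  intro H hH hHc hh
  obtain ⟨O, hO, hOc, hho⟩ := drop_hom (r := s + 3) (t := j + 1) (by omega) hHc hh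
  exact hc O (hO.trans hH) hOc hho

end Pool.Agent.V11247.LV
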