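import Pool.Agent.V11247.LV.Defs
import Pool.Agent.V11247.Cmp.Pairs
import Pool.Agent.TH458.VC.Haus

/-!
# Links of bounded VC-dimension: pairs
-/

set_option autoImplicit false

namespace Pool.Agent.V11247.LV

open Finset
open Pool.Agent.V11247.Cmp (exists_initial)
open Pool.Agent.TH458.VC (haus)
open Pool.Agent.TH138.NF (Homogeneous)

section

variable {κ : Type} [Fintype κ] [DecidableEq κ]

/-- the colours of the pairs with the last vertex `z` -/
def tr (c : Finset ℕ → κ) (L : Finset ℕ) (z : ℕ) : Finset ({x // x ∈ L} × κ) :=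
  univ.filter (fun p => c {p.1.1, z} = p.2)

lemma tr_vc {c : Finset ℕ → κ} {L H V : Finset ℕ} {d : ℕ} (h : PVC d V c) (hL : L ⊆ V)
    (hH : H ⊆ V) (hLH : ∀ l ∈ L, ∀ u ∈ H, l < u) :
    (H.image (tr c L)).vcDim ≤ Fintype.card κ * d := by
  unfold Finset.vcDim
  apply Finset.sup_le
  intro s hs
  rw [mem_shatterer] at hs
  by_contra hcon
  push Not at hcon
  obtain ⟨b, -, hb⟩ := exists_lt_card_fiber_of_mul_lt_card_of_maps_to
    (s := s) (t := (univ : Finset κ)) (f := fun p => p.2) (n := d) (fun _ _ => mem_univ _)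
    (by rw [card_univ]; exact hcon)
  obtain ⟨S0, hS0, hS0c⟩ := exists_subset_card_eq (s := s.filter (fun p => p.2 = b)) (n := d + 1) hb
  have hS0s : ∀ p ∈ S0, p ∈ s ∧ p.2 = b := fun p hp => mem_filter.1 (hS0 hp)
  have hXc : (S0.image (fun p => p.1.1)).card = d + 1 := by
    rw [card_image_of_injOn, hS0c]
    intro p hp p' hp' he
    have h1 : p.1 = p'.1 := Subtype.ext he
    exact Prod.ext h1 ((hS0s p hp).2.trans (hS0s p' hp').2.symm)
  have hXL : S0.image (fun p => p.1.1) ⊆ L := by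
    intro x hx
    obtain ⟨p, _, rfl⟩ := mem_image.1 hx
    exact p.1.2
  obtain ⟨E, hE, h2⟩ := h b (S0.image (fun p => p.1.1)) (hXL.trans hL) hXc
  obtain ⟨u, hu, hsu⟩ := hs (t := S0.filter (fun p => p.1.1 ∈ E)) (by
    intro p hp
    exact (hS0s p (mem_filter.1 hp).1).1)
  obtain ⟨z, hz, rfl⟩ := mem_image.1 hu
  refine h2 z (hH hz) (fun x hx => hLH x (hXL hx) z hz) ?_
  intro x hx
  obtain ⟨p, hp, rfl⟩ := mem_image.1 hx
  obtain ⟨hps, hpb⟩ := hS0s p hp
  have h3 : p ∈ s ∩ tr c L z ↔ p ∈ S0.filter (fun p => p.1.1 ∈ E) := by rw [hsu]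
  rw [mem_inter, mem_filter] at h3
  constructor
  · intro h4
    have h5 : p ∈ tr c L z := mem_filter.2 ⟨mem_univ _, by rw [hpb]; exact h4⟩
    exact (h3.1 ⟨hps, h5⟩).2
  · intro h4
    have h5 := (mem_filter.1 (h3.2 ⟨hp, h4⟩).2).2
    rw [hpb] at h5
    exact h5

theorem cluster_pair {c : Finset ℕ → κ} {L H V : Finset ℕ} {d : ℕ} (h : PVC d V c) (hL : L ⊆ V)
    (hH : H ⊆ V) (hLH : ∀ l ∈ L, ∀ u ∈ H, l < u) (ρ : ℕ) (hρ : 1 ≤ ρ) (hρL : ρ ≤ L.card)
    (hHne : H.Nonempty) :
    ∃ a : κ, ∃ A ⊆ H, ∃ B ⊆ L,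
      (H.card : ℝ) ≤ (22 * (L.card * Fintype.card κ : ℕ) / ρ) ^ (Fintype.card κ * d) * A.card ∧
      L.card ≤ Fintype.card κ * B.card ∧
      ∀ z ∈ A, (B.filter (fun x => c {x, z} ≠ a)).card < ρ := by
  classical
  have hq1 : 1 ≤ Fintype.card κ := Fintype.card_pos_iff.2 ⟨c ∅⟩
  have hcardX : Fintype.card ({x // x ∈ L} × κ) = L.card * Fintype.card κ := by
    rw [Fintype.card_prod, Fintype.card_coe]
  let Q : Finset ℕ → Prop := fun F => ∀ f ∈ F, ∀ g ∈ F, f ≠ g →
    ρ ≤ (symmDiff (tr c L f) (tr c L g)).card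
  obtain ⟨F, hF, hmax⟩ := Finset.exists_max_image (H.powerset.filter Q) Finset.card
    ⟨∅, by simp [Q]⟩
  rw [mem_filter, mem_powerset] at hF
  obtain ⟨hFA, hFP⟩ := hF
  have hcov : ∀ u ∈ H, ∃ f ∈ F, (symmDiff (tr c L f) (tr c L u)).card < ρ := by
    intro u hu
    by_cases huF : u ∈ F
    · refine ⟨u, huF, ?_⟩
      rw [symmDiff_self]
      show (∅ : Finset _).card < ρ
      rw [card_empty]
      omega
    · by_contra hcon
      push Not at hcon
      have hins : insert u F ∈ H.powerset.filter Q := by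
        rw [mem_filter, mem_powerset]
        refine ⟨insert_subset hu hFA, ?_⟩
        intro f hf g hg hfg
        rw [mem_insert] at hf hg
        rcases hf with rfl | hf <;> rcases hg with rfl | hg
        · exact absurd rfl hfg
        · rw [symmDiff_comm]; exact hcon g hg
        · exact hcon f hf
        · exact hFP f hf g hg hfg
      have := hmax _ hins
      rw [card_insert_of_notMem huF] at this
      omega
  have hinj : Set.InjOn (tr c L) F := by
    intro f hf g hg hfg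
    by_contra hne
    have h1 := hFP f hf g hg hne
    rw [hfg, symmDiff_self] at h1
    have : (⊥ : Finset ({x // x ∈ L} × κ)).card = 0 := card_empty
    omega
  have hρ0 : (0 : ℝ) < ρ := by exact_mod_cast hρ
  have hFcard : (F.card : ℝ) ≤
      (22 * (L.card * Fintype.card κ : ℕ) / ρ) ^ (Fintype.card κ * d) := by
    have h2 := haus ({x // x ∈ L} × κ) (F.image (tr c L)) ρ hρ (by
      intro a ha b hb hab
      obtain ⟨f, hf, rfl⟩ := mem_image.1 ha
      obtain ⟨g, hg, rfl⟩ := mem_image.1 hb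
      exact hFP f hf g hg (fun h => hab (by rw [h]))) (by
        rw [hcardX]
        exact hρL.trans (Nat.le_mul_of_pos_right _ hq1))
    rw [card_image_of_injOn hinj, hcardX] at h2
    refine h2.trans (pow_le_pow_right₀ ?_ (tr_vc h hL (hFA.trans hH)
      (fun l hl u hu => hLH l hl u (hFA hu))))
    rw [le_div_iff₀ hρ0]
    have h3 : (ρ : ℝ) ≤ (L.card * Fintype.card κ : ℕ) := by
      exact_mod_cast hρL.trans (Nat.le_mul_of_pos_right _ hq1)
    linarith
  have hFne : F.Nonempty := by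
    obtain ⟨a, ha⟩ := hHne
    obtain ⟨f, hf, -⟩ := hcov a ha
    exact ⟨f, hf⟩
  let Cl : ℕ → Finset ℕ := fun f => H.filter (fun u => (symmDiff (tr c L f) (tr c L u)).card < ρ)
  have hsum : H.card ≤ ∑ f ∈ F, (Cl f).card := by
    refine le_trans (card_le_card ?_) card_biUnion_le
    intro u hu
    rw [mem_biUnion]
    obtain ⟨f, hf, h⟩ := hcov u hu
    exact ⟨f, hf, mem_filter.2 ⟨hu, h⟩⟩
  obtain ⟨f, hf, hfmax⟩ := Finset.exists_max_image F (fun f => (Cl f).card) hFne
  obtain ⟨a, -, hamax⟩ := Finset.exists_max_image (univ : Finset κ)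
    (fun a => (L.filter (fun x => c {x, f} = a)).card) ⟨c ∅, mem_univ _⟩
  refine ⟨a, Cl f, filter_subset _ _, L.filter (fun x => c {x, f} = a), filter_subset _ _,
    ?_, ?_, ?_⟩
  · have h1 : H.card ≤ F.card * (Cl f).card := by
      refine hsum.trans ?_
      rw [← smul_eq_mul]
      exact Finset.sum_le_card_nsmul _ _ _ (fun g hg => hfmax g hg)
    have h2 : (H.card : ℝ) ≤ F.card * ((Cl f).card : ℝ) := by exact_mod_cast h1
    exact h2.trans (mul_le_mul_of_nonneg_right hFcard (Nat.cast_nonneg _))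
  · have h1 : L.card = ∑ b ∈ (univ : Finset κ), (L.filter (fun x => c {x, f} = b)).card :=
      card_eq_sum_card_fiberwise (fun _ _ => mem_coe.2 (mem_univ _))
    rw [h1]
    refine (Finset.sum_le_card_nsmul _ _ _ (fun b hb => hamax b hb)).trans ?_
    rw [smul_eq_mul, card_univ]
  · intro z hz
    have hz2 := (mem_filter.1 hz).2
    refine lt_of_le_of_lt ?_ hz2
    have hsub : (L.filter (fun x => c {x, f} = a)).filter (fun x => c {x, z} ≠ a) ⊆
        (symmDiff (tr c L f) (tr c L z)).image (fun p => p.1.1) := by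
      intro x hx
      obtain ⟨hx1, hx2⟩ := mem_filter.1 hx
      obtain ⟨hx3, hx4⟩ := mem_filter.1 hx1
      refine mem_image.2 ⟨(⟨x, hx3⟩, a), mem_symmDiff.2 (Or.inl ⟨?_, ?_⟩), rfl⟩
      · exact mem_filter.2 ⟨mem_univ _, hx4⟩
      · intro h5
        exact hx2 (mem_filter.1 h5).2
    exact (card_le_card hsub).trans card_image_le

/-- two systems of cliques with all pairs between them of the same colour -/
lemma combine {c : Finset ℕ → κ} {a : κ} {U A B : Finset ℕ} (hA : A ⊆ U) (hB : B ⊆ U)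
    (hBA : ∀ x ∈ B, ∀ y ∈ A, x < y) {XA XB : κ → Finset ℕ} (hXA : ∀ b, XA b ⊆ A)
    (hXB : ∀ b, XB b ⊆ B) (cA : ∀ b, Clq c b (XA b)) (cB : ∀ b, Clq c b (XB b))
    (hab : ∀ x ∈ XB a, ∀ y ∈ XA a, c {x, y} = a) {t : ℕ} (tA : t ≤ ∏ b, (XA b).card)
    (tB : t ≤ ∏ b, (XB b).card) :
    ∃ X : κ → Finset ℕ, (∀ b, X b ⊆ U) ∧ (∀ b, Clq c b (X b)) ∧ 2 * t ≤ ∏ b, (X b).card := by
  classical
  let X : κ → Finset ℕ := fun b =>
    if b = a then XA b ∪ XB b else if (XB b).card ≤ (XA b).card then XA b else XB b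
  have hXa : X a = XA a ∪ XB a := if_pos rfl
  have hXb : ∀ b, b ≠ a → X b = if (XB b).card ≤ (XA b).card then XA b else XB b := fun b hb =>
    if_neg hb
  refine ⟨X, ?_, ?_, ?_⟩
  · intro b
    by_cases hb : b = a
    · subst hb
      rw [hXa]
      exact union_subset ((hXA b).trans hA) ((hXB b).trans hB)
    · rw [hXb b hb]
      split_ifs
      · exact (hXA b).trans hA
      · exact (hXB b).trans hB
  · intro b
    by_cases hb : b = a
    · subst hb
      rw [hXa]
      intro x hx y hy hxy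
      rcases mem_union.1 hx with hx | hx <;> rcases mem_union.1 hy with hy | hy
      · exact cA b x hx y hy hxy
      · exact absurd (hBA y (hXB b hy) x (hXA b hx)) (by omega)
      · exact hab x hx y hy
      · exact cB b x hx y hy hxy
    · rw [hXb b hb]
      split_ifs
      · exact cA b
      · exact cB b
  · have hd : Disjoint (XA a) (XB a) := by
      rw [disjoint_left]
      intro x hx hy
      exact lt_irrefl x (hBA x (hXB a hy) x (hXA a hx))
    rw [← mul_prod_erase univ (fun b => (X b).card) (mem_univ a)]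
    rw [← mul_prod_erase univ (fun b => (XA b).card) (mem_univ a)] at tA
    rw [← mul_prod_erase univ (fun b => (XB b).card) (mem_univ a)] at tB
    have h1 : ∏ b ∈ univ.erase a, (XA b).card ≤ ∏ b ∈ univ.erase a, (X b).card := by
      apply prod_le_prod'
      intro b hb
      rw [hXb b (ne_of_mem_erase hb)]
      split_ifs with h
      · exact le_rfl
      · omega
    have h2 : ∏ b ∈ univ.erase a, (XB b).card ≤ ∏ b ∈ univ.erase a, (X b).card := by
      apply prod_le_prod'
      intro b hb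
      rw [hXb b (ne_of_mem_erase hb)]
      split_ifs with h
      · exact h
      · exact le_rfl
    rw [hXa, card_union_of_disjoint hd, Nat.add_mul]
    have h3 := tA.trans (Nat.mul_le_mul_left (XA a).card h1)
    have h4 := tB.trans (Nat.mul_le_mul_left (XB a).card h2)
    omega

theorem grow {c : Finset ℕ → κ} {V : Finset ℕ} {d n : ℕ} (h : PVC d V c) (s : ℕ) :
    ∀ U ⊆ V, ((88 * Fintype.card κ ^ 3 * n) ^ (Fintype.card κ * d + 1)) ^ s ≤ U.card →
      (∀ (a : κ) (S : Finset ℕ), S ⊆ U → Clq c a S → S.card < n) →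
      ∃ X : κ → Finset ℕ, (∀ b, X b ⊆ U) ∧ (∀ b, Clq c b (X b)) ∧ 2 ^ s ≤ ∏ b, (X b).card := by
  classical
  set q := Fintype.card κ with hq
  have hq1 : 1 ≤ q := Fintype.card_pos_iff.2 ⟨c ∅⟩
  induction s with
  | zero =>
    intro U _ hUc _
    rw [pow_zero] at hUc
    obtain ⟨u, hu⟩ := card_pos.1 hUc
    refine ⟨fun _ => {u}, fun _ => by simpa using hu, ?_, by simp⟩
    intro b x hx y hy hxy
    rw [mem_singleton] at hx hy
    omega
  | succ s ih =>
    intro U hU hUc hno
    set b₀ := 88 * q ^ 3 * n with hb₀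
    set B₀ := b₀ ^ (q * d + 1) with hB₀
    -- `n` is positive
    have hn : 1 ≤ n := by
      have := hno (c ∅) ∅ (empty_subset _) (by intro x hx; exact absurd hx (notMem_empty _))
      omega
    have hq3 : 1 ≤ q ^ 3 := Nat.one_le_pow _ _ hq1
    have hb₀1 : 88 ≤ b₀ := by
      calc 88 = 88 * 1 * 1 := by norm_num
        _ ≤ 88 * q ^ 3 * n := Nat.mul_le_mul (Nat.mul_le_mul_left _ hq3) hn
    have hB₀b : b₀ ≤ B₀ := Nat.le_self_pow (by omega) _
    have hBs : 1 ≤ B₀ ^ s := Nat.one_le_pow _ _ (by omega)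
    have hUB : B₀ ≤ U.card := by
      refine le_trans ?_ hUc
      exact Nat.le_self_pow (by omega) _
    -- the two halves
    obtain ⟨L, hL, hLc, hLlt⟩ := exists_initial U (U.card / 2) (by omega)
    set H := U \ L with hH
    have hHc : H.card = U.card - U.card / 2 := by
      rw [hH, card_sdiff_of_subset hL, hLc]
    have hHU : H ⊆ U := sdiff_subset
    have hq2 : 1 ≤ q ^ 2 := Nat.one_le_pow _ _ hq1
    have hq23 : q ^ 2 ≤ q ^ 3 := Nat.pow_le_pow_right hq1 (by norm_num)
    have hqq3 : q ≤ q ^ 3 := Nat.le_self_pow (by norm_num) _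
    set D := 2 * q ^ 2 * n with hD
    have hD1 : 1 ≤ D := Nat.mul_pos (by omega) hn
    have hDL : D ≤ L.card := by
      have h1 : 2 * q ^ 2 * n ≤ 2 * q ^ 3 * n := Nat.mul_le_mul_right _ (by omega)
      have h2 : b₀ = 44 * (2 * q ^ 3 * n) := by rw [hb₀]; ring
      omega
    set ρ := L.card / D with hρd
    have hρ : 1 ≤ ρ := (Nat.one_le_div_iff hD1).2 hDL
    have hρD : ρ * D ≤ L.card := Nat.div_mul_le_self _ _
    have hρL : ρ ≤ L.card := Nat.div_le_self _ _
    have hρ2 : L.card < (ρ + 1) * D := by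
      have := Nat.lt_div_mul_add (a := L.card) (b := D) hD1
      rw [← hρd] at this
      linarith [this]
    obtain ⟨a, A, hA, B, hB, hAc, hBc, hAB⟩ := cluster_pair h (hL.trans hU) (hHU.trans hU) hLlt ρ
      hρ hρL (card_pos.1 (by omega))
    rw [← hq] at hAc hBc
    have hρ0 : (0 : ℝ) < ρ := by exact_mod_cast hρ
    have hbase : 22 * ((L.card * q : ℕ) : ℝ) / ρ ≤ (b₀ : ℝ) := by
      rw [div_le_iff₀ hρ0]
      have h1 : 22 * (L.card * q) ≤ b₀ * ρ := by
        have h2 : L.card ≤ 2 * ρ * D := by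
          have : (ρ + 1) * D ≤ 2 * ρ * D := Nat.mul_le_mul_right _ (by omega)
          omega
        calc 22 * (L.card * q) ≤ 22 * ((2 * ρ * D) * q) :=
              Nat.mul_le_mul_left _ (Nat.mul_le_mul_right _ h2)
          _ = b₀ * ρ := by rw [hD, hb₀]; ring
      exact_mod_cast h1
    have hAc' : H.card ≤ b₀ ^ (q * d) * A.card := by
      have h1 : (H.card : ℝ) ≤ (b₀ : ℝ) ^ (q * d) * A.card := by
        refine hAc.trans (mul_le_mul_of_nonneg_right ?_ (Nat.cast_nonneg _))
        exact pow_le_pow_left₀ (by positivity) hbase _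
      exact_mod_cast h1
    have hpow : 1 ≤ b₀ ^ (q * d) := Nat.one_le_pow _ _ (by omega)
    have hUc' : B₀ ^ s * (b₀ ^ (q * d) * b₀) ≤ U.card := by
      have : B₀ ^ (s + 1) = B₀ ^ s * (b₀ ^ (q * d) * b₀) := by
        rw [pow_succ, hB₀]
        ring
      omega
    have hAs : B₀ ^ s ≤ A.card := by
      by_contra hcon
      push Not at hcon
      have h1 : U.card ≤ 2 * H.card := by omega
      have h2 : B₀ ^ s * (b₀ ^ (q * d) * b₀) ≤ 2 * (b₀ ^ (q * d) * A.card) := by omega
      have h3 : b₀ ^ (q * d) * (B₀ ^ s * b₀) ≤ b₀ ^ (q * d) * (2 * A.card) := by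
        calc b₀ ^ (q * d) * (B₀ ^ s * b₀) = B₀ ^ s * (b₀ ^ (q * d) * b₀) := by ring
          _ ≤ 2 * (b₀ ^ (q * d) * A.card) := h2
          _ = b₀ ^ (q * d) * (2 * A.card) := by ring
      have h4 := Nat.le_of_mul_le_mul_left h3 hpow
      have h5 : B₀ ^ s * 88 ≤ B₀ ^ s * b₀ := Nat.mul_le_mul_left _ hb₀1
      omega
    obtain ⟨XA, hXA, cA, tA⟩ := ih A (hA.trans (hHU.trans hU)) hAs
      (fun b S hS hc => hno b S (hS.trans (hA.trans hHU)) hc)
    set Z := (univ : Finset κ).biUnion XA with hZ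
    have hZc : Z.card ≤ q * n := by
      refine card_biUnion_le.trans ?_
      refine (Finset.sum_le_card_nsmul _ _ n (fun b _ => ?_)).trans ?_
      · exact (hno b (XA b) ((hXA b).trans (hA.trans hHU)) (cA b)).le
      · rw [smul_eq_mul, card_univ]
    have hZA : Z ⊆ A := by
      intro z hz
      obtain ⟨b, _, hb⟩ := mem_biUnion.1 hz
      exact hXA b hb
    set B' := B.filter (fun x => ∀ z ∈ Z, c {x, z} = a) with hB'
    have hBB' : B.card ≤ B'.card + q * n * ρ := by
      have hsub : B ⊆ B' ∪ Z.biUnion (fun z => B.filter (fun x => c {x, z} ≠ a)) := by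
        intro x hx
        by_cases hx2 : ∀ z ∈ Z, c {x, z} = a
        · exact mem_union_left _ (mem_filter.2 ⟨hx, hx2⟩)
        · push Not at hx2
          obtain ⟨z, hz, hxz⟩ := hx2
          exact mem_union_right _ (mem_biUnion.2 ⟨z, hz, mem_filter.2 ⟨hx, hxz⟩⟩)
      refine (card_le_card hsub).trans ((card_union_le _ _).trans (Nat.add_le_add_left ?_ _))
      refine card_biUnion_le.trans ?_
      refine (Finset.sum_le_card_nsmul _ _ ρ (fun z hz => (hAB z (hZA hz)).le)).trans ?_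
      rw [smul_eq_mul]
      exact Nat.mul_le_mul_right _ hZc
    have hLB' : L.card ≤ 2 * q * B'.card := by
      have h1 : 2 * q * (q * n * ρ) = ρ * D := by rw [hD]; ring
      have h2 : 2 * q * B.card ≤ 2 * q * B'.card + 2 * q * (q * n * ρ) := by
        calc 2 * q * B.card ≤ 2 * q * (B'.card + q * n * ρ) := Nat.mul_le_mul_left _ hBB'
          _ = 2 * q * B'.card + 2 * q * (q * n * ρ) := by ring
      have h3 : 2 * L.card ≤ 2 * q * B.card := by
        calc 2 * L.card ≤ 2 * (q * B.card) := Nat.mul_le_mul_left _ hBc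
          _ = 2 * q * B.card := by ring
      omega
    have hBs' : B₀ ^ s ≤ B'.card := by
      have h1 : U.card ≤ 3 * L.card := by omega
      have h2 : B₀ ^ s * (6 * q) ≤ U.card := by
        refine le_trans (Nat.mul_le_mul_left _ ?_) hUc'
        calc 6 * q ≤ 88 * q ^ 3 * n := by
              calc 6 * q ≤ 88 * q ^ 3 * 1 := by omega
                _ ≤ 88 * q ^ 3 * n := Nat.mul_le_mul_left _ hn
          _ = b₀ := rfl
          _ ≤ b₀ ^ (q * d) * b₀ := Nat.le_mul_of_pos_left _ hpow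
      have h3 : (6 * q) * B₀ ^ s ≤ (6 * q) * B'.card := by
        calc (6 * q) * B₀ ^ s = B₀ ^ s * (6 * q) := by ring
          _ ≤ 3 * L.card := h2.trans h1
          _ ≤ 3 * (2 * q * B'.card) := Nat.mul_le_mul_left _ hLB'
          _ = (6 * q) * B'.card := by ring
      exact Nat.le_of_mul_le_mul_left h3 (by omega)
    have hB'U : B' ⊆ U := (filter_subset _ _).trans (hB.trans hL)
    obtain ⟨XB, hXB, cB, tB⟩ := ih B' (hB'U.trans hU) hBs'
      (fun b S hS hc => hno b S (hS.trans hB'U) hc)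
    obtain ⟨X, h1, h2, h3⟩ := combine (a := a) (hA.trans hHU) hB'U (by
      intro x hx y hy
      exact hLlt x (hB (mem_filter.1 hx).1) y (hA hy)) hXA hXB cA cB (by
      intro x hx y hy
      exact (mem_filter.1 (hXB a hx)).2 y (mem_biUnion.2 ⟨a, mem_univ _, hy⟩)) tA tB
    exact ⟨X, h1, h2, by rw [pow_succ, mul_comm]; exact h3⟩

end

/-- the theorem for pairs -/
theorem pair_hom {κ : Type} [Fintype κ] {c : Finset ℕ → κ} {V : Finset ℕ} {d : ℕ} (n : ℕ)
    (h : PVC d V c)
    (hV : ((88 * Fintype.card κ ^ 3 * n) ^ (Fintype.card κ * d + 1)) ^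
      (Fintype.card κ * (Nat.log 2 n + 1)) ≤ V.card) :
    ∃ H ⊆ V, H.card = n ∧ Homogeneous 2 c H := by
  classical
  by_cases hex : ∃ (a : κ) (S : Finset ℕ), S ⊆ V ∧ Clq c a S ∧ n ≤ S.card
  · obtain ⟨a, S, hS, hcl, hSc⟩ := hex
    obtain ⟨H, hH, hHc⟩ := exists_subset_card_eq (s := S) (n := n) hSc
    refine ⟨H, hH.trans hS, hHc, ?_⟩
    have key : ∀ A ⊆ H, A.card = 2 → c A = a := by
      intro A hA hAc
      obtain ⟨x, y, hxy, rfl⟩ := card_eq_two.1 hAc
      have hx : x ∈ S := hH (hA (by simp))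
      have hy : y ∈ S := hH (hA (by simp))
      rcases lt_or_gt_of_ne hxy with h1 | h1
      · exact hcl x hx y hy h1
      · rw [pair_comm]
        exact hcl y hy x hx h1
    intro A hA B hB hAc hBc
    rw [key A hA hAc, key B hB hBc]
  · exfalso
    push Not at hex
    obtain ⟨X, h1, h2, h3⟩ := grow h _ V (Subset.refl _) hV (fun a S hS hcl => hex a S hS hcl)
    have h4 : ∏ b, (X b).card ≤ n ^ Fintype.card κ := by
      refine (Finset.prod_le_pow_card _ _ n (fun b _ => (hex b (X b) (h1 b) (h2 b)).le)).trans ?_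
      rw [card_univ]
    have hq0 : Fintype.card κ ≠ 0 := by
      have : 0 < Fintype.card κ := Fintype.card_pos_iff.2 ⟨c ∅⟩
      omega
    have h5 : n ^ Fintype.card κ < (2 ^ (Nat.log 2 n + 1)) ^ Fintype.card κ :=
      Nat.pow_lt_pow_left (Nat.lt_pow_succ_log_self (by norm_num) n) hq0
    rw [← pow_mul, mul_comm (Nat.log 2 n + 1)] at h5
    omega

end Pool.Agent.V11247.LV
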