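import Pool.Agent.V11247.LV.Steps
import Pool.Agent.V11247.LV.Pairs
import Pool.Agent.V11247.Cmp.Main
import Pool.Agent.TH138.NF.Main

/-!
# Links of bounded VC-dimension: the bounds
-/

set_option autoImplicit false

namespace Pool.Agent.V11247.LV

open Finset Filter
open Pool.Agent.TH138.NF (Homogeneous tow tow_mono high)
open Pool.Agent.V11247.Cmp (tw tw_cast tw_mono)

lemma tw_add (k x a : ℕ) : tw k x + a ≤ tw k (x + a) := by
  induction k with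
  | zero => exact le_rfl
  | succ k ih =>
    show 2 ^ tw k x + a ≤ 2 ^ tw k (x + a)
    have h1 : a + 1 ≤ 2 ^ a := Nat.lt_two_pow_self
    have h2 : 1 ≤ 2 ^ tw k x := Nat.one_le_two_pow
    calc 2 ^ tw k x + a ≤ 2 ^ tw k x * (a + 1) := by nlinarith
      _ ≤ 2 ^ tw k x * 2 ^ a := Nat.mul_le_mul_left _ h1
      _ = 2 ^ (tw k x + a) := by rw [pow_add]
      _ ≤ 2 ^ tw k (x + a) := Nat.pow_le_pow_right (by norm_num) ih

lemma sz_step (m₀ k q t : ℕ) :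
    sz m₀ (q * 2 ^ (k * q)) k (t + 1) ≤
      2 ^ (2 ^ (q * (k + 1) + k) * (sz m₀ (q * 2 ^ (k * q)) k t) ^ (k + 1)) := by
  set L := q * 2 ^ (k * q) with hL
  set m := sz m₀ L k t with hm
  show (2 * L ^ ((m + 1) ^ k)) ^ m ≤ _
  rcases Nat.eq_zero_or_pos m with h0 | hpos
  · rw [h0, pow_zero]
    exact Nat.one_le_two_pow
  set l := q * (k + 1) with hl
  have hLl : L ≤ 2 ^ l := by
    calc L ≤ 2 ^ q * 2 ^ (k * q) := Nat.mul_le_mul_right _ Nat.lt_two_pow_self.le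
      _ = 2 ^ l := by rw [← pow_add, hl]; ring_nf
  have h1 : 2 * L ^ ((m + 1) ^ k) ≤ 2 ^ (1 + l * (m + 1) ^ k) := by
    calc 2 * L ^ ((m + 1) ^ k) ≤ 2 * (2 ^ l) ^ ((m + 1) ^ k) :=
          Nat.mul_le_mul_left _ (Nat.pow_le_pow_left hLl _)
      _ = 2 ^ (1 + l * (m + 1) ^ k) := by rw [← pow_mul, pow_add, pow_one]
  have h2 : (2 * L ^ ((m + 1) ^ k)) ^ m ≤ 2 ^ ((1 + l * (m + 1) ^ k) * m) := by
    rw [pow_mul]
    exact Nat.pow_le_pow_left h1 _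
  refine h2.trans (Nat.pow_le_pow_right (by norm_num) ?_)
  have h3 : (m + 1) ^ k ≤ 2 ^ k * m ^ k := by
    rw [← mul_pow]
    exact Nat.pow_le_pow_left (by omega) _
  have h4 : 1 ≤ m ^ k := Nat.one_le_pow _ _ hpos
  have h5 : 1 ≤ 2 ^ k := Nat.one_le_two_pow
  have h6 : l + 1 ≤ 2 ^ l := Nat.lt_two_pow_self
  have h7 : 1 ≤ 2 ^ k * m ^ k := Nat.mul_pos h5 h4
  calc (1 + l * (m + 1) ^ k) * m ≤ (2 ^ k * m ^ k + l * (2 ^ k * m ^ k)) * m :=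
        Nat.mul_le_mul_right _ (Nat.add_le_add h7 (Nat.mul_le_mul_left _ h3))
    _ = (l + 1) * 2 ^ k * m ^ (k + 1) := by ring
    _ ≤ 2 ^ l * 2 ^ k * m ^ (k + 1) := Nat.mul_le_mul_right _ (Nat.mul_le_mul_right _ h6)
    _ = 2 ^ (l + k) * m ^ (k + 1) := by rw [pow_add 2 l k]

/-- the bound for the number of vertices -/
theorem sz_le (m₀ k q x₀ : ℕ) (hq : 1 ≤ q) (h₀ : m₀ ≤ 2 ^ x₀) (t : ℕ) :
    sz m₀ (q * 2 ^ (k * q)) k (t + 1) ≤
      tw (t + 2) ((k + 1) * x₀ + (q * (k + 1) + k) + t * ((q * (k + 1) + k) + (k + 1))) := by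
  set la := q * (k + 1) + k with hla
  induction t with
  | zero =>
    refine (sz_step m₀ k q 0).trans ?_
    show 2 ^ (2 ^ la * m₀ ^ (k + 1)) ≤ 2 ^ 2 ^ ((k + 1) * x₀ + la + 0 * _)
    apply Nat.pow_le_pow_right (by norm_num)
    calc 2 ^ la * m₀ ^ (k + 1) ≤ 2 ^ la * (2 ^ x₀) ^ (k + 1) :=
          Nat.mul_le_mul_left _ (Nat.pow_le_pow_left h₀ _)
      _ = 2 ^ ((k + 1) * x₀ + la + 0 * (la + (k + 1))) := by
          rw [← pow_mul, ← pow_add]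
          congr 1
          ring
  | succ t ih =>
    refine (sz_step m₀ k q (t + 1)).trans ?_
    set x := (k + 1) * x₀ + la + t * (la + (k + 1)) with hx
    have e : (k + 1) * x₀ + la + (t + 1) * (la + (k + 1)) = x + (la + (k + 1)) := by
      rw [hx]; ring
    rw [e]
    show 2 ^ (2 ^ la * (sz m₀ (q * 2 ^ (k * q)) k (t + 1)) ^ (k + 1)) ≤
      2 ^ 2 ^ 2 ^ tw t (x + (la + (k + 1)))
    apply Nat.pow_le_pow_right (by norm_num)
    have h1 : (sz m₀ (q * 2 ^ (k * q)) k (t + 1)) ^ (k + 1) ≤ (2 ^ 2 ^ tw t x) ^ (k + 1) :=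
      Nat.pow_le_pow_left ih _
    calc 2 ^ la * (sz m₀ (q * 2 ^ (k * q)) k (t + 1)) ^ (k + 1)
        ≤ 2 ^ la * (2 ^ 2 ^ tw t x) ^ (k + 1) := Nat.mul_le_mul_left _ h1
      _ = 2 ^ (la + 2 ^ tw t x * (k + 1)) := by rw [← pow_mul, ← pow_add]
      _ ≤ 2 ^ 2 ^ tw t (x + (la + (k + 1))) := by
          apply Nat.pow_le_pow_right (by norm_num)
          have h2 : la + (k + 1) + 1 ≤ 2 ^ (la + (k + 1)) := Nat.lt_two_pow_self
          have h3 : 1 ≤ 2 ^ tw t x := Nat.one_le_two_pow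
          calc la + 2 ^ tw t x * (k + 1) ≤ 2 ^ tw t x * (la + (k + 1) + 1) := by nlinarith
            _ ≤ 2 ^ tw t x * 2 ^ (la + (k + 1)) := Nat.mul_le_mul_left _ h2
            _ = 2 ^ (tw t x + (la + (k + 1))) := by rw [pow_add 2 (tw t x)]
            _ ≤ 2 ^ tw t (x + (la + (k + 1))) :=
                Nat.pow_le_pow_right (by norm_num) (tw_add t x _)

lemma m₀_le (q d n : ℕ) (hq : 1 ≤ q) :
    ((88 * q ^ 3 * n) ^ (q * d + 1)) ^ (q * (Nat.log 2 n + 1)) ≤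
      2 ^ (11 * q ^ 3 * (d + 1) * (Nat.log 2 n + 1) ^ 2) := by
  set w := Nat.log 2 n + 1 with hw
  have hw1 : 1 ≤ w := by omega
  have h1 : 88 * q ^ 3 * n ≤ 2 ^ (7 + 3 * q + w) := by
    have h2 : n ≤ 2 ^ w := (Nat.lt_pow_succ_log_self (by norm_num) n).le
    have h3 : q ^ 3 ≤ 2 ^ (3 * q) := by
      rw [mul_comm 3 q, pow_mul]
      exact Nat.pow_le_pow_left Nat.lt_two_pow_self.le _
    calc 88 * q ^ 3 * n ≤ 2 ^ 7 * 2 ^ (3 * q) * 2 ^ w :=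
          Nat.mul_le_mul (Nat.mul_le_mul (by norm_num) h3) h2
      _ = 2 ^ (7 + 3 * q + w) := by rw [pow_add 2 (7 + 3 * q) w, pow_add 2 7]
  have hqw : 1 ≤ q * w := Nat.mul_pos hq hw1
  have h4 : 7 + 3 * q + w ≤ 11 * (q * w) := by nlinarith
  have h5 : q * d + 1 ≤ q * (d + 1) := by nlinarith
  calc ((88 * q ^ 3 * n) ^ (q * d + 1)) ^ (q * w)
      ≤ ((2 ^ (11 * (q * w))) ^ (q * d + 1)) ^ (q * w) :=
        Nat.pow_le_pow_left (Nat.pow_le_pow_left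
          (h1.trans (Nat.pow_le_pow_right (by norm_num) h4)) _) _
    _ ≤ ((2 ^ (11 * (q * w))) ^ (q * (d + 1))) ^ (q * w) :=
        Nat.pow_le_pow_left (Nat.pow_le_pow_right (by positivity) h5) _
    _ = 2 ^ (11 * q ^ 3 * (d + 1) * w ^ 2) := by
        rw [← pow_mul, ← pow_mul]
        congr 1
        ring

/-- the bound -/
theorem upper (r i j d n N : ℕ) (hij : i ≤ j) (hj : j + 2 ≤ r) {κ : Type} [Fintype κ]
    (hN : tow (r - 1) ((r * (3 * r + 4) * Fintype.card κ ^ 3 * (d + 1) ^ 2 *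
      (Nat.log 2 n + 1) ^ 2 : ℕ) : ℝ) ≤ N) (c : Finset ℕ → κ)
    (h : LinkVC r i j d (range N) c) :
    ∃ H ⊆ range N, H.card = n ∧ Homogeneous r c H := by
  obtain ⟨s, rfl⟩ : ∃ s, r = s + 2 := ⟨r - 2, by omega⟩
  set q := Fintype.card κ with hq
  have hq1 : 1 ≤ q := Fintype.card_pos_iff.2 ⟨c ∅⟩
  set w := Nat.log 2 n + 1 with hw
  have hw1 : 1 ≤ w := by omega
  set m₀ := ((88 * q ^ 3 * n) ^ (q * d + 1)) ^ (q * w) with hm₀
  set k := d + s + 1 with hk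
  have hN' : tw (s + 1) ((s + 2) * (3 * (s + 2) + 4) * q ^ 3 * (d + 1) ^ 2 * w ^ 2) ≤ N := by
    have h1 : ((tw (s + 1) ((s + 2) * (3 * (s + 2) + 4) * q ^ 3 * (d + 1) ^ 2 * w ^ 2) : ℕ) : ℝ)
        ≤ N := by
      rw [tw_cast]
      exact hN
    exact_mod_cast h1
  have hm : m₀ ≤ 2 ^ (11 * q ^ 3 * (d + 1) * w ^ 2) := m₀_le q d n hq1
  refine reduce n d k m₀ (fun V c hV hc => pair_hom n hV hc) s (by omega) i j (range N) c hij
    (by omega) h ?_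
  rw [card_range]
  refine le_trans ?_ hN'
  -- the quantity `Y`
  set Y := q ^ 3 * (d + 1) ^ 2 * w ^ 2 with hY
  have hdd : 1 ≤ d + 1 := by omega
  have hd2 : d + 1 ≤ (d + 1) ^ 2 := Nat.le_self_pow (by norm_num) _
  have hw2 : 1 ≤ w ^ 2 := Nat.one_le_pow _ _ hw1
  have hq3 : q ≤ q ^ 3 := Nat.le_self_pow (by norm_num) _
  have hYd : q * (d + 1) ≤ Y := by
    calc q * (d + 1) = q * (d + 1) * 1 := by ring
      _ ≤ q ^ 3 * (d + 1) ^ 2 * w ^ 2 := Nat.mul_le_mul (Nat.mul_le_mul hq3 hd2) hw2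
  have hYx : q ^ 3 * (d + 1) * w ^ 2 * (d + 1) = Y := by rw [hY]; ring
  have hk1 : k + 1 ≤ (s + 2) * (d + 1) := by
    rw [hk]
    nlinarith
  cases s with
  | zero =>
    show m₀ ≤ 2 ^ ((0 + 2) * (3 * (0 + 2) + 4) * q ^ 3 * (d + 1) ^ 2 * w ^ 2)
    refine hm.trans (Nat.pow_le_pow_right (by norm_num) ?_)
    have h2 : 11 * q ^ 3 * (d + 1) * w ^ 2 ≤ 11 * Y := by
      calc 11 * q ^ 3 * (d + 1) * w ^ 2 = 11 * (q ^ 3 * (d + 1) * w ^ 2 * 1) := by ring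
        _ ≤ 11 * (q ^ 3 * (d + 1) * w ^ 2 * (d + 1)) :=
            Nat.mul_le_mul_left _ (Nat.mul_le_mul_left _ hdd)
        _ = 11 * Y := by rw [hYx]
    have h3 : (0 + 2) * (3 * (0 + 2) + 4) * q ^ 3 * (d + 1) ^ 2 * w ^ 2 = 20 * Y := by
      rw [hY]; ring
    omega
  | succ s =>
    refine (sz_le m₀ k q _ hq1 hm s).trans (tw_mono _ ?_)
    have h1 : (k + 1) * (11 * q ^ 3 * (d + 1) * w ^ 2) ≤ (s + 1 + 2) * 11 * Y := by
      calc (k + 1) * (11 * q ^ 3 * (d + 1) * w ^ 2)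
          ≤ ((s + 1 + 2) * (d + 1)) * (11 * q ^ 3 * (d + 1) * w ^ 2) :=
            Nat.mul_le_mul_right _ hk1
        _ = (s + 1 + 2) * 11 * (q ^ 3 * (d + 1) * w ^ 2 * (d + 1)) := by ring
        _ = (s + 1 + 2) * 11 * Y := by rw [hYx]
    have h2 : q * (k + 1) ≤ (s + 1 + 2) * Y := by
      calc q * (k + 1) ≤ q * ((s + 1 + 2) * (d + 1)) := Nat.mul_le_mul_left _ hk1
        _ = (s + 1 + 2) * (q * (d + 1)) := by ring
        _ ≤ (s + 1 + 2) * Y := Nat.mul_le_mul_left _ hYd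
    have h3 : k + 1 ≤ (s + 1 + 2) * Y := by
      refine le_trans ?_ h2
      exact Nat.le_mul_of_pos_left _ hq1
    have h4 : (s + 1 + 2) * (3 * (s + 1 + 2) + 4) * q ^ 3 * (d + 1) ^ 2 * w ^ 2 =
        (s + 1 + 2) * 11 * Y + 2 * ((s + 1 + 2) * Y) + s * (3 * ((s + 1 + 2) * Y)) := by
      rw [hY]; ring
    rw [h4]
    have h5 : s * ((q * (k + 1) + k) + (k + 1)) ≤ s * (3 * ((s + 1 + 2) * Y)) := by
      apply Nat.mul_le_mul_left
      omega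
    omega

end Pool.Agent.V11247.LV
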