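import Pool.Agent.V11247.LV.Defs
import Pool.Agent.V11247.LV.Ends

/-!
# Links of bounded VC-dimension: the steps
-/

set_option autoImplicit false

namespace Pool.Agent.V11247.LV

open Finset
open Pool.Agent.TH138.NF (Homogeneous)

lemma below_insert_lt {M : Finset ℕ} {v x : ℕ} (hv : v ∉ M) (h : v < x) :
    below (insert v M) x = below M x + 1 := by
  unfold below
  rw [filter_insert, if_pos h, card_insert_of_notMem (fun h' => hv (mem_filter.1 h').1)]

lemma below_insert_gt {M : Finset ℕ} {v x : ℕ} (h : x < v) :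
    below (insert v M) x = below M x := by
  unfold below
  rw [filter_insert, if_neg (by omega)]

lemma below_all {M : Finset ℕ} {z : ℕ} (h : ∀ v ∈ M, v < z) : below M z = M.card := by
  unfold below
  rw [filter_true_of_mem h]

lemma all_below {M : Finset ℕ} {z : ℕ} (h : below M z = M.card) : ∀ v ∈ M, v < z := by
  intro v hv
  by_contra hcon
  have h2 : (M.filter (fun v => v < z)).card < M.card := by
    apply card_lt_card
    refine ⟨filter_subset _ _, fun hsub => ?_⟩
    exact hcon (mem_filter.1 (hsub hv)).2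
  unfold below at h
  omega

lemma none_below {M : Finset ℕ} {x : ℕ} (hx : x ∉ M) (h : below M x = 0) : ∀ v ∈ M, x < v := by
  intro v hv
  unfold below at h
  rw [card_eq_zero] at h
  by_contra hcon
  have h1 : v < x := by
    rcases Nat.lt_or_ge v x with h2 | h2
    · exact h2
    · exact absurd (le_antisymm h2 (not_lt.1 hcon) ▸ hv) hx
  have : v ∈ M.filter (fun v => v < x) := mem_filter.2 ⟨hv, h1⟩
  rw [h] at this
  exact absurd this (notMem_empty _)

variable {κ : Type}

theorem step_first {r i j d : ℕ} {V P : Finset ℕ} {c : Finset ℕ → κ} {zs : ℕ}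
    (h : LinkVC (r + 1) (i + 1) (j + 1) d V c) (hP : P ⊆ V) (hzs : zs ∈ V)
    (hlt : ∀ p ∈ P, zs < p) : LinkVC r i j d P (fun A => c (insert zs A)) := by
  intro M hM hMc a X hX hXc hXM
  have hzM : zs ∉ M := fun h => lt_irrefl _ (hlt zs (hM h))
  obtain ⟨E, hE, h2⟩ := h (insert zs M) (insert_subset hzs (hM.trans hP))
    (by rw [card_insert_of_notMem hzM]; omega) a X (hX.trans hP) hXc (by
      intro x hx
      obtain ⟨h3, h4⟩ := hXM x hx
      have h5 := hlt x (hX hx)
      refine ⟨?_, by rw [below_insert_lt hzM h5, h4]⟩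
      intro h6
      rcases mem_insert.1 h6 with h6 | h6
      · omega
      · exact h3 h6)
  refine ⟨E, hE, fun z hz hzM' hzj hXz h3 => ?_⟩
  have h5 := hlt z hz
  refine h2 z (hP hz) ?_ (by rw [below_insert_lt hzM h5, hzj]) hXz ?_
  · intro h6
    rcases mem_insert.1 h6 with h6 | h6
    · omega
    · exact hzM' h6
  · intro x hx
    rw [← h3 x hx, Finset.insert_comm z zs M, Finset.insert_comm x zs]

theorem step_last {r i j d : ℕ} {V P : Finset ℕ} {c : Finset ℕ → κ} {zs : ℕ}
    (h : LinkVC (r + 1) i j d V c) (hP : P ⊆ V) (hzs : zs ∈ V)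
    (hlt : ∀ p ∈ P, p < zs) : LinkVC r i j d P (fun A => c (insert zs A)) := by
  intro M hM hMc a X hX hXc hXM
  have hzM : zs ∉ M := fun h => lt_irrefl _ (hlt zs (hM h))
  obtain ⟨E, hE, h2⟩ := h (insert zs M) (insert_subset hzs (hM.trans hP))
    (by rw [card_insert_of_notMem hzM]; omega) a X (hX.trans hP) hXc (by
      intro x hx
      obtain ⟨h3, h4⟩ := hXM x hx
      have h5 := hlt x (hX hx)
      refine ⟨?_, by rw [below_insert_gt h5, h4]⟩
      intro h6
      rcases mem_insert.1 h6 with h6 | h6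
      · omega
      · exact h3 h6)
  refine ⟨E, hE, fun z hz hzM' hzj hXz h3 => ?_⟩
  have h5 := hlt z hz
  refine h2 z (hP hz) ?_ (by rw [below_insert_gt h5, hzj]) hXz ?_
  · intro h6
    rcases mem_insert.1 h6 with h6 | h6
    · omega
    · exact hzM' h6
  · intro x hx
    rw [← h3 x hx, Finset.insert_comm z zs M, Finset.insert_comm x zs]

/-! ### the middle step -/

/-- the first `d + 1` elements -/
def low (d : ℕ) (A : Finset ℕ) : Finset ℕ := A.filter (fun x => below A x < d + 1)

lemma low_eq {d : ℕ} {X M : Finset ℕ} (hX : X.card = d + 1) (h : ∀ x ∈ X, ∀ v ∈ M, x < v) :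
    low d (X ∪ M) = X := by
  ext x
  unfold low below
  rw [mem_filter, mem_union]
  constructor
  · rintro ⟨hx | hx, h2⟩
    · exact hx
    · exfalso
      have h3 : X ⊆ (X ∪ M).filter (fun v => v < x) := by
        intro y hy
        exact mem_filter.2 ⟨mem_union_left _ hy, h y hy x hx⟩
      have := card_le_card h3
      omega
  · intro hx
    refine ⟨Or.inl hx, ?_⟩
    have h3 : (X ∪ M).filter (fun v => v < x) ⊆ X.erase x := by
      intro y hy
      obtain ⟨h4, h5⟩ := mem_filter.1 hy
      rcases mem_union.1 h4 with h4 | h4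
      · exact mem_erase.2 ⟨by omega, h4⟩
      · have := h x hx y h4
        omega
    have h4 := card_le_card h3
    rw [card_erase_of_mem hx] at h4
    omega

/-- `E` is a pattern on `X` which does not occur above `M` -/
def Miss (c : Finset ℕ → κ) (V : Finset ℕ) (a : κ) (X M E : Finset ℕ) : Prop :=
  E ⊆ X ∧ ∀ z ∈ V, z ∉ M → below M z = M.card → (∀ x ∈ X, x < z) →
    ¬ ∀ x ∈ X, (c (insert x (insert z M)) = a ↔ x ∈ E)

open scoped Classical in
/-- the missing pattern -/
noncomputable def pat (c : Finset ℕ → κ) (V : Finset ℕ) (d : ℕ) (A : Finset ℕ) (w : ℕ) (a : κ) :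
    Finset ℕ :=
  if h : ∃ E, Miss c V a (low d A) (insert w (A \ low d A)) E then h.choose else ∅

lemma pat_subset (c : Finset ℕ → κ) (V : Finset ℕ) (d : ℕ) (A : Finset ℕ) (w : ℕ) (a : κ) :
    pat c V d A w a ⊆ low d A := by
  unfold pat
  split_ifs with h
  · exact h.choose_spec.1
  · exact empty_subset _

lemma pat_spec {c : Finset ℕ → κ} {V : Finset ℕ} {d : ℕ} {A : Finset ℕ} {w : ℕ} {a : κ}
    (h : ∃ E, Miss c V a (low d A) (insert w (A \ low d A)) E) :
    Miss c V a (low d A) (insert w (A \ low d A)) (pat c V d A w a) := by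
  unfold pat
  rw [dif_pos h]
  exact h.choose_spec

theorem step_mid {s d : ℕ} {V P : Finset ℕ} {c : Finset ℕ → κ} {zs : ℕ}
    (h : LinkVC (s + 3) 0 (s + 1) d V c) (hP : P ⊆ V) (hzs : zs ∈ V)
    (hlt : ∀ p ∈ P, p < zs)
    (hpat : ∀ A ⊆ P, A.card = d + 1 + s → ∀ w ∈ P, (∀ a ∈ A, a < w) → ∀ a : κ,
      pat c V d A w a = pat c V d A zs a) :
    LinkVC (s + 2) 0 s d P (fun A => c (insert zs A)) := by
  intro M hM hMc a X hX hXc hXM
  have hMc' : M.card = s := by omega
  have hXlt : ∀ x ∈ X, ∀ v ∈ M, x < v := fun x hx => none_below (hXM x hx).1 (hXM x hx).2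
  have hdisj : Disjoint X M := by
    rw [disjoint_left]
    intro x hx hxM
    exact (hXM x hx).1 hxM
  have hAc : (X ∪ M).card = d + 1 + s := by rw [card_union_of_disjoint hdisj, hXc, hMc']
  have hlow := low_eq hXc hXlt
  have hdiff : (X ∪ M) \ X = M := by
    rw [union_sdiff_left]
    exact sdiff_eq_self_of_disjoint hdisj.symm
  refine ⟨pat c V d (X ∪ M) zs a, ?_, ?_⟩
  · have := pat_subset c V d (X ∪ M) zs a
    rwa [hlow] at this
  · intro w hw hwM hwj hXw h3
    have hMw : ∀ v ∈ M, v < w := all_below (by rw [hwj, hMc'])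
    have hAw : ∀ u ∈ X ∪ M, u < w := by
      intro u hu
      rcases mem_union.1 hu with hu | hu
      · exact hXw u hu
      · exact hMw u hu
    have hins : (insert w M).card = s + 1 := by rw [card_insert_of_notMem hwM, hMc']
    have hex : ∃ E, Miss c V a (low d (X ∪ M)) (insert w ((X ∪ M) \ low d (X ∪ M))) E := by
      rw [hlow, hdiff]
      obtain ⟨E, hE, h4⟩ := h (insert w M) (insert_subset (hP hw) (hM.trans hP))
        (by rw [hins]) a X (hX.trans hP) hXc (by
          intro x hx
          refine ⟨?_, by rw [below_insert_gt (hXw x hx)]; exact (hXM x hx).2⟩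
          intro h5
          rcases mem_insert.1 h5 with h5 | h5
          · have := hXw x hx
            omega
          · exact (hXM x hx).1 h5)
      refine ⟨E, hE, fun z hz hzM hzb hXz => ?_⟩
      exact h4 z hz hzM (by rw [hzb, hins]) hXz
    have hmiss := pat_spec hex
    rw [hpat (X ∪ M) (union_subset hX hM) hAc w hw hAw a] at hmiss
    rw [hlow, hdiff] at hmiss
    obtain ⟨-, h4⟩ := hmiss
    have hzw : ∀ v ∈ insert w M, v < zs := by
      intro v hv
      rcases mem_insert.1 hv with rfl | hv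
      · exact hlt _ hw
      · exact hlt _ (hM hv)
    refine h4 zs hzs (fun h5 => lt_irrefl _ (hzw zs h5)) (below_all hzw)
      (fun x hx => hlt x (hX hx)) ?_
    intro x hx
    rw [← h3 x hx, Finset.insert_comm x zs]

/-! ### homogeneous sets -/

theorem hom_last {r : ℕ} {P H : Finset ℕ} {c : Finset ℕ → κ} {zs : ℕ}
    (hP : ∀ A ⊆ P, A.card = r → ∀ z ∈ P, (∀ a ∈ A, a < z) → c (insert z A) = c (insert zs A))
    (hH : H ⊆ P) (hh : Homogeneous r (fun A => c (insert zs A)) H) :
    Homogeneous (r + 1) c H := by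
  have key : ∀ A ⊆ H, A.card = r + 1 → ∃ B ⊆ H, B.card = r ∧ c A = c (insert zs B) := by
    intro A hA hAc
    have hne : A.Nonempty := card_pos.1 (by omega)
    have hz : A.max' hne ∈ A := max'_mem _ _
    refine ⟨A.erase (A.max' hne), (erase_subset _ _).trans hA,
      by rw [card_erase_of_mem hz]; omega, ?_⟩
    have := hP (A.erase (A.max' hne)) (((erase_subset _ _).trans hA).trans hH)
      (by rw [card_erase_of_mem hz]; omega) (A.max' hne) (hH (hA hz)) (fun a ha =>
        lt_of_le_of_ne (le_max' _ _ (mem_of_mem_erase ha)) (ne_of_mem_erase ha))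
    rwa [insert_erase hz] at this
  intro A hA B hB hAc hBc
  obtain ⟨A', hA', hAc', e1⟩ := key A hA hAc
  obtain ⟨B', hB', hBc', e2⟩ := key B hB hBc
  rw [e1, e2]
  exact hh A' hA' B' hB' hAc' hBc'

theorem hom_first {r : ℕ} {P H : Finset ℕ} {c : Finset ℕ → κ} {zs : ℕ}
    (hP : ∀ A ⊆ P, A.card = r → ∀ z ∈ P, (∀ a ∈ A, z < a) → c (insert z A) = c (insert zs A))
    (hH : H ⊆ P) (hh : Homogeneous r (fun A => c (insert zs A)) H) :
    Homogeneous (r + 1) c H := by
  have key : ∀ A ⊆ H, A.card = r + 1 → ∃ B ⊆ H, B.card = r ∧ c A = c (insert zs B) := by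
    intro A hA hAc
    have hne : A.Nonempty := card_pos.1 (by omega)
    have hz : A.min' hne ∈ A := min'_mem _ _
    refine ⟨A.erase (A.min' hne), (erase_subset _ _).trans hA,
      by rw [card_erase_of_mem hz]; omega, ?_⟩
    have := hP (A.erase (A.min' hne)) (((erase_subset _ _).trans hA).trans hH)
      (by rw [card_erase_of_mem hz]; omega) (A.min' hne) (hH (hA hz)) (fun a ha =>
        lt_of_le_of_ne (min'_le _ _ (mem_of_mem_erase ha)) (ne_of_mem_erase ha).symm)
    rwa [insert_erase hz] at this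
  intro A hA B hB hAc hBc
  obtain ⟨A', hA', hAc', e1⟩ := key A hA hAc
  obtain ⟨B', hB', hBc', e2⟩ := key B hB hBc
  rw [e1, e2]
  exact hh A' hA' B' hB' hAc' hBc'

/-! ### the induction -/

/-- numbers of vertices -/
def sz (m₀ L k : ℕ) : ℕ → ℕ
  | 0 => m₀
  | s + 1 => (2 * L ^ ((sz m₀ L k s + 1) ^ k)) ^ sz m₀ L k s

theorem reduce [Fintype κ] (n d k m₀ : ℕ)
    (hpair : ∀ (V : Finset ℕ) (c : Finset ℕ → κ), PVC d V c → m₀ ≤ V.card →
      ∃ H ⊆ V, H.card = n ∧ Homogeneous 2 c H) (s : ℕ) :
    d + s + 1 ≤ k → ∀ (i j : ℕ) (V : Finset ℕ) (c : Finset ℕ → κ), i ≤ j → j ≤ s →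
      LinkVC (s + 2) i j d V c →
      sz m₀ (Fintype.card κ * 2 ^ (k * Fintype.card κ)) k s ≤ V.card →
      ∃ H ⊆ V, H.card = n ∧ Homogeneous (s + 2) c H := by
  classical
  induction s with
  | zero =>
    intro _ i j V c hij hj h hV
    obtain rfl : j = 0 := by omega
    obtain rfl : i = 0 := by omega
    exact hpair V c (pvc_of_linkVC h) hV
  | succ s ih =>
    intro hk i j V c hij hj h hV
    set q := Fintype.card κ with hq
    have hq1 : 1 ≤ q := Fintype.card_pos_iff.2 ⟨c ∅⟩
    set L := q * 2 ^ (k * q) with hL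
    have hL1 : 1 ≤ L := Nat.mul_pos hq1 (by positivity)
    have hqL : q ≤ L := Nat.le_mul_of_pos_right _ (by positivity)
    have hV' : (2 * L ^ ((sz m₀ L k s + 1) ^ k)) ^ sz m₀ L k s ≤ V.card := hV
    rcases Nat.eq_zero_or_pos i with hi | hi
    · subst hi
      -- the last vertex is removed
      let F : Finset ℕ → ℕ → κ × (κ → Finset ℕ) := fun A z =>
        (c (insert z A), fun a => (pat c V d A z a) ∩ A)
      obtain ⟨P, hP, hPc, zs, hzs, hlt, hF⟩ := ends F L k hL1 V (by
        intro A _ hA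
        refine ⟨univ ×ˢ Fintype.piFinset (fun _ => A.powerset), ?_, ?_⟩
        · rw [card_product, Fintype.card_piFinset, card_univ]
          simp only [card_powerset, prod_const, card_univ]
          rw [← hq, ← pow_mul, hL]
          exact Nat.mul_le_mul_left _ (Nat.pow_le_pow_right (by norm_num)
            (Nat.mul_le_mul_right _ hA))
        · intro z _ _
          refine mem_product.2 ⟨mem_univ _, Fintype.mem_piFinset.2 (fun a => ?_)⟩
          exact mem_powerset.2 inter_subset_right) (sz m₀ L k s) hV'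
      have hcol : ∀ A ⊆ P, A.card = s + 2 → ∀ z ∈ P, (∀ a ∈ A, a < z) →
          c (insert z A) = c (insert zs A) := by
        intro A hA hAc z hz hAz
        exact congrArg Prod.fst (hF A hA (card_pos.1 (by omega)) (by omega) z hz hAz)
      rcases Nat.lt_or_ge s j with hjs | hjs
      · obtain rfl : j = s + 1 := by omega
        have hpat : ∀ A ⊆ P, A.card = d + 1 + s → ∀ w ∈ P, (∀ a ∈ A, a < w) → ∀ a : κ,
            pat c V d A w a = pat c V d A zs a := by
          intro A hA hAc w hw hAw a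
          have h1 := congrFun (congrArg Prod.snd
            (hF A hA (card_pos.1 (by omega)) (by omega) w hw hAw)) a
          have h2 : ∀ u, pat c V d A u a ∩ A = pat c V d A u a := fun u =>
            inter_eq_left.2 ((pat_subset c V d A u a).trans (filter_subset _ _))
          simp only [F, h2] at h1
          exact h1
        obtain ⟨H, hH, hHc, hh⟩ := ih (by omega) 0 s P (fun A => c (insert zs A)) (by omega) le_rfl
          (step_mid h hP hzs hlt hpat) hPc.ge
        exact ⟨H, hH.trans hP, hHc, hom_last hcol hH hh⟩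
      · obtain ⟨H, hH, hHc, hh⟩ := ih (by omega) 0 j P (fun A => c (insert zs A)) (by omega) hjs
          (step_last h hP hzs hlt) hPc.ge
        exact ⟨H, hH.trans hP, hHc, hom_last hcol hH hh⟩
    · -- the first vertex is removed
      obtain ⟨i, rfl⟩ : ∃ i', i = i' + 1 := ⟨i - 1, by omega⟩
      obtain ⟨j, rfl⟩ : ∃ j', j = j' + 1 := ⟨j - 1, by omega⟩
      obtain ⟨P, hP, hPc, zs, hzs, hlt, hF⟩ := starts (fun A z => c (insert z A)) L k hL1 V (by
        intro A _ hA
        exact ⟨univ, by rw [card_univ]; exact hqL, fun z _ _ => mem_univ _⟩) (sz m₀ L k s) hV'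
      have hcol : ∀ A ⊆ P, A.card = s + 2 → ∀ z ∈ P, (∀ a ∈ A, z < a) →
          c (insert z A) = c (insert zs A) := by
        intro A hA hAc z hz hAz
        exact hF A hA (card_pos.1 (by omega)) (by omega) z hz hAz
      obtain ⟨H, hH, hHc, hh⟩ := ih (by omega) i j P (fun A => c (insert zs A)) (by omega)
        (by omega) (step_first h hP hzs hlt) hPc.ge
      exact ⟨H, hH.trans hP, hHc, hom_first hcol hH hh⟩

end Pool.Agent.V11247.LV
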